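import Pool.Agent.L7h69.Look.Example
import Pool.Agent.L7h69.Look.Exist

set_option autoImplicit false

/-!
The approximation ratio `rho k` of the `k`-lookahead auction satisfies `rho k ≤ 4 / 5` for all
`k ≥ 2`; in particular it does not tend to `1` as `k` tends to infinity.

All definitions used in the statement are in `Pool/Agent/L7h69/Look/Defs.lean`.  The file
`Pool/Agent/L7h69/Look/Exist.lean` proves that revenue-maximising mechanisms for the distributions
`D_K` exist, and that the suprema and infima in the definitions are over bounded sets.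

The counterexample, for `k ≥ 2` and large parameters `s`, `H` and small `δ`: there are `k + 1`
bidders; the last one always has value `1`.  A bidder `j ≤ k` is chosen uniformly at random; the
other bidders `i ≤ k` have values `1 + δ (l i + 1)` for labels `l i : ℕ`.
If the labels have sum `s + 1`, then `j` has value `2` (relative weight `1/2`).  If the labels have
sum `s`, then `j` has value `2` (weight `1/2`) or `H` (weight `1/H`).  The optimal mechanism sells to
`j` at the price `2` or `H`, and to the last bidder in the remaining case; a mechanism for the first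
`k` bidders cannot make use of the remaining case.
-/

namespace Pool.Agent.Results.MP_0f9109_lc.LookaheadFourFifths

open Pool.Agent.L7h69.Look Filter Topology

lemma rho_le {k : ℕ} (hk : 2 ≤ k) {N : ℕ} (hN : 2 ≤ N) :
    rho k ≤ 4 / 5 * (1 + 1 / (N : ℝ)) ^ 2 * (1 + (k : ℝ) / (2 * N)) := by
  obtain ⟨s, rfl⟩ : ∃ s, N = s + 1 := ⟨N - 1, by omega⟩
  have hs : 1 ≤ s := by omega
  set N' : ℝ := ((s + 1 : ℕ) : ℝ) with hN'
  have hN2 : (2 : ℝ) ≤ N' := by rw [hN']; exact_mod_cast hN
  have hN0 : (0 : ℝ) < N' := by linarith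
  set τ : ℝ := 1 / N' with hτ
  have hτ0 : 0 < τ := by positivity
  have hτ1 : τ < 1 := by rw [hτ, div_lt_one hN0]; linarith
  set δ : ℝ := τ / (s + 2) with hδ
  have hδ0 : 0 < δ := by positivity
  have hδτ : δ * (s + 2) ≤ τ := by
    rw [hδ, div_mul_cancel₀]; positivity
  set H : ℝ := 2 * N' with hH
  have hH2 : 2 < H := by linarith
  have h2H : 2 / H = τ := by rw [hH, hτ]; field_simp
  let j0 : Fin k := ⟨0, by omega⟩
  set a : ℝ := ((comp j0 (s + 1)).card : ℝ) with ha
  set b : ℝ := ((comp j0 s).card : ℝ) with hb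
  have hcard : ∀ (j : Fin k) (m : ℕ), (comp j m).card = (comp j0 m).card := by
    intro j m; rw [card_comp, card_comp]
  have hb0 : 0 < b := by
    rw [hb]; exact_mod_cast Finset.card_pos.2 (comp_nonempty hk j0 s)
  have ha0 : 0 < a := by
    rw [ha]; exact_mod_cast Finset.card_pos.2 (comp_nonempty hk j0 (s + 1))
  have hab : a * N' ≤ b * (N' + k) := by
    have h1 : (comp j0 (s + 1)).card * (s + 1) = (comp j0 s).card * (k - 1 + s) := by
      rw [card_comp, card_comp]
      have h2 := Nat.add_one_mul_choose_eq (k - 1 + s - 1) s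
      have h3 : k - 1 + s - 1 + 1 = k - 1 + s := by omega
      have h4 : k - 1 + (s + 1) - 1 = k - 1 + s := by omega
      rw [h3] at h2
      rw [h4, ← h2]
      ring
    have h5 : a * N' = b * ((k - 1 + s : ℕ) : ℝ) := by
      rw [ha, hb, hN']; exact_mod_cast h1
    rw [h5]
    apply mul_le_mul_of_nonneg_left _ hb0.le
    rw [hN']
    have : k - 1 + s ≤ (s + 1) + k := by omega
    exact_mod_cast this
  set D := xdist hk s hδ0 hH2 with hD
  have hZ := xtot_pos (k := k) (s := s) hk (H := H) (by linarith)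
  have hopt := opt_ge hk s hδ0 hH2 hδτ hτ1
  have e1 : (∑ j : Fin k, (((comp j (s + 1)).card : ℝ) + 3 / 2 * (comp j s).card)) =
      k * (a + 3 / 2 * b) := by
    simp only [hcard]
    rw [Finset.sum_const, Finset.card_univ, Fintype.card_fin, nsmul_eq_mul]
  rw [e1] at hopt
  have hk0 : (0 : ℝ) < k := by exact_mod_cast (by omega : 0 < k)
  have hopt0 : 0 < k * (a + 3 / 2 * b) / xtot k s H := by positivity
  have hrev : D.rev k ≤ k * ((1 + τ) * a + (1 + τ) * (1 + τ) * b) / xtot k s H := by
    apply Real.sSup_le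
    · rintro r ⟨A, hA, rfl⟩
      have h1 := rule_le hk s hδ0 hH2 hδτ A hA
      have e2 : (∑ j : Fin k, ((1 + τ) * ((comp j (s + 1)).card : ℝ) +
          (1 + 2 / H) * (1 + τ) * (comp j s).card)) =
          k * ((1 + τ) * a + (1 + τ) * (1 + τ) * b) := by
        simp only [hcard, h2H]
        rw [Finset.sum_const, Finset.card_univ, Fintype.card_fin, nsmul_eq_mul]
      rw [e2] at h1
      exact h1
    · positivity
  have h1 : rho k ≤ D.rev k / D.OPT :=
    csInf_le (bddBelow_rho k) ⟨k + 1, D, hopt0.trans_le hopt, rfl⟩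
  have h2 : D.rev k / D.OPT ≤ (k * ((1 + τ) * a + (1 + τ) * (1 + τ) * b) / xtot k s H) /
      (k * (a + 3 / 2 * b) / xtot k s H) := by
    apply div_le_div₀ _ hrev hopt0 hopt
    positivity
  refine h1.trans (h2.trans ?_)
  rw [div_div_div_cancel_right₀ hZ.ne', mul_div_mul_left _ _ hk0.ne', div_le_iff₀ (by positivity)]
  -- final inequality
  have h3 : (1 + τ) * a + (1 + τ) * (1 + τ) * b ≤ (1 + τ) ^ 2 * (a + b) := by
    have : 0 ≤ (1 + τ) * τ * a := by positivity
    nlinarith
  refine h3.trans ?_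
  have h4 : a + b ≤ 4 / 5 * (1 + k / (2 * N')) * (a + 3 / 2 * b) := by
    have e3 : a ≤ b * (1 + k / N') := by
      have : b * (1 + k / N') = b * (N' + k) / N' := by field_simp
      rw [this, le_div_iff₀ hN0]
      exact hab
    have h5 : 0 ≤ (k : ℝ) / N' := by positivity
    have e4 : (k : ℝ) / (2 * N') = (k / N') / 2 := by field_simp
    rw [e4]
    set η := (k : ℝ) / N'
    nlinarith [mul_nonneg h5 ha0.le, mul_nonneg h5 hb0.le]
  have h6 : (0 : ℝ) ≤ (1 + τ) ^ 2 := by positivity
  calc (1 + τ) ^ 2 * (a + b) ≤ (1 + τ) ^ 2 * (4 / 5 * (1 + k / (2 * N')) * (a + 3 / 2 * b)) :=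
        mul_le_mul_of_nonneg_left h4 h6
    _ = _ := by rw [hτ]; ring

/-- **The ratio of the `k`-lookahead auction does not tend to `1`.**  For all `k ≥ 2` the
approximation ratio `rho k` of the `k`-lookahead mechanism is at most `4 / 5`, and hence `rho k`
does not tend to `1` as `k → ∞`. -/
theorem result : (∀ k : ℕ, 2 ≤ k → rho k ≤ 4 / 5) ∧ ¬ Tendsto rho atTop (𝓝 1) := by
  have key : ∀ k : ℕ, 2 ≤ k → rho k ≤ 4 / 5 := by
    intro k hk
    have h1 : Tendsto (fun N : ℕ => 1 / (N : ℝ)) atTop (𝓝 0) := tendsto_one_div_atTop_nhds_zero_nat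
    have h2 : Tendsto (fun N : ℕ => 4 / 5 * (1 + 1 / (N : ℝ)) ^ 2 * (1 + (k : ℝ) / (2 * N))) atTop
        (𝓝 (4 / 5 * (1 + 0) ^ 2 * (1 + (k : ℝ) / 2 * 0))) := by
      have h3 : Tendsto (fun N : ℕ => 4 / 5 * (1 + 1 / (N : ℝ)) ^ 2 *
          (1 + (k : ℝ) / 2 * (1 / (N : ℝ)))) atTop
          (𝓝 (4 / 5 * (1 + 0) ^ 2 * (1 + (k : ℝ) / 2 * 0))) :=
        ((h1.const_add 1).pow 2 |>.const_mul (4 / 5)).mul ((h1.const_mul ((k : ℝ) / 2)).const_add 1)
      refine h3.congr fun N => ?_
      congr 2
      rw [div_mul_div_comm, mul_one]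
    have h4 : (4 / 5 * (1 + 0) ^ 2 * (1 + (k : ℝ) / 2 * 0)) = 4 / 5 := by ring
    rw [h4] at h2
    refine ge_of_tendsto h2 ?_
    filter_upwards [eventually_ge_atTop 2] with N hN
    exact rho_le hk hN
  refine ⟨key, fun h => ?_⟩
  have := le_of_tendsto h (b := 4 / 5) (by
    filter_upwards [eventually_ge_atTop 2] with k hk
    exact key k hk)
  norm_num at this

end Pool.Agent.Results.MP_0f9109_lc.LookaheadFourFifths
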